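import Pool.Agent.OMF.Stmts
import Pool.Agent.Helper44_GTO.EBD

/-! Squad OMF, row CNT (helper77): defects and ordinary lines.  The first part is a copy of the proof
of `Pool.Agent.GTO.H44.ebdS` (helper44). -/

namespace Pool.Agent.OMF.H77

open Finset Pool.Agent.GTO Pool.Agent.GTO.H44 Pool.Agent.OMF
open scoped Classical

/-- the two estimates of EBD before the last step -/
theorem pre (hB : BasStmt) (hM : MelStmt) (hT : TriStmt) (hG : GdwStmt) (hN : NbrStmt)
    (hV : VtxStmt) (hU : UnqStmt) : ∀ (ι : Type) [Fintype ι] (a : ι → V), PI a → Spn a →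
      (EE a : ℤ) ≤ ∑ ℓ ∈ (lns a).filter (fun ℓ => ℓ.card ≠ 3), (24 - 8 * (ℓ.card : ℤ)) - 24 +
        ∑ ℓ ∈ (lns a).filter (fun ℓ => ℓ.card ≠ 3), 4 * (ℓ.card : ℤ) ∧
      (BF a : ℤ) ≤ ∑ ℓ ∈ (lns a).filter (fun ℓ => ℓ.card ≠ 3), (24 - 8 * (ℓ.card : ℤ)) - 24 +
        3 * ∑ ℓ ∈ (lns a).filter (fun ℓ => ℓ.card ≠ 3), 4 * (ℓ.card : ℤ) ∧
      6 ≤ ∑ ℓ ∈ (lns a).filter (fun ℓ => ℓ.card ≠ 3), (6 - 2 * (ℓ.card : ℤ)) ∧
      ∀ ℓ ∈ lns a, 2 ≤ ℓ.card := by
  intro ι _ a ha hs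
  have hcard : 2 ≤ Fintype.card ι := by
    obtain ⟨i, j, k, h⟩ := hs
    have hij : i ≠ j := by
      intro h1; apply h; subst h1; simp only [dt]; ring
    exact Fintype.one_lt_card_iff.mpr ⟨i, j, hij⟩
  obtain ⟨-, hB7, -, -, -, hD2, hl2⟩ := hB.2.2.2.2.2 ι a ha
  obtain ⟨hM1, hM2⟩ := hM ι a ha hs
  set NG := (topes a).filter fun σ => ¬ IsGood a σ with hNG
  set T3 := NG.filter fun σ => (walls a σ).card = 3 with hT3
  set bad := (lns a).filter fun ℓ => ℓ.card ≠ 3 with hbad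
  set VT : Finset ι → Finset (ι → Bool) := fun ℓ => univ.filter fun σ =>
    Tope a σ ∧ ∃ x : V, x ≠ 0 ∧ (∀ i ∈ ℓ, ip (a i) x = 0) ∧ ∀ i, i ∉ ℓ → 0 < ip (bv a σ i) x
    with hVT
  have hln : ∀ i j, i ≠ j → ln a i j ∈ lns a := by
    intro i j hij
    simp only [lns, mem_image, mem_filter, mem_univ, true_and, Prod.exists]
    exact ⟨i, j, hij, rfl⟩
  have mVT : ∀ σ u v w, Tope a σ → walls a σ = {u, v, w} → u ≠ v → v ≠ w → w ≠ u →
      σ ∈ VT (ln a u v) := by
    intro σ u v w h1 h2 h3 h4 h5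
    simp only [hVT, mem_filter, mem_univ, true_and]
    exact ⟨h1, mem_VT hT ha hs h1 h2 h3 h4 h5⟩
  -- three walls, not good
  have hT3sub : T3 ⊆ bad.biUnion VT := by
    intro σ hσ
    simp only [hT3, hNG, mem_filter, topes, mem_univ, true_and] at hσ
    obtain ⟨⟨h1, h2⟩, h3⟩ := hσ
    obtain ⟨u, v, w, huv, huw, hvw, hw⟩ := card_eq_three.mp h3
    obtain ⟨-, -, h4⟩ := hT ι a ha hs σ u v w h1 hw huv hvw huw.symm
    rw [mem_biUnion]
    have hw2 : walls a σ = {v, w, u} := by rw [hw]; ext t; simp; tauto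
    have hw3 : walls a σ = {w, u, v} := by rw [hw]; ext t; simp; tauto
    by_cases c1 : (ln a u v).card = 3
    · by_cases c2 : (ln a v w).card = 3
      · by_cases c3 : (ln a w u).card = 3
        · exact absurd (h4 c1 c2 c3) h2
        · exact ⟨ln a w u, by simp only [hbad, mem_filter]; exact ⟨hln _ _ huw.symm, c3⟩,
            mVT σ w u v h1 hw3 huw.symm huv hvw⟩
      · exact ⟨ln a v w, by simp only [hbad, mem_filter]; exact ⟨hln _ _ hvw, c2⟩,
            mVT σ v w u h1 hw2 hvw huw.symm huv⟩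
    · exact ⟨ln a u v, by simp only [hbad, mem_filter]; exact ⟨hln _ _ huv, c1⟩,
            mVT σ u v w h1 hw huv hvw huw.symm⟩
  have hT3c : (T3.card : ℤ) ≤ ∑ ℓ ∈ bad, 4 * (ℓ.card : ℤ) := by
    have h1 : T3.card ≤ ∑ ℓ ∈ bad, 4 * ℓ.card := by
      refine (card_le_card hT3sub).trans (card_biUnion_le.trans (sum_le_sum fun ℓ hℓ => ?_))
      simp only [hbad, mem_filter] at hℓ
      exact hV ι a ha hcard ℓ hℓ.1
    exact_mod_cast h1
  -- sum of the excess
  have hex : ∑ σ ∈ NG, (4 : ℤ) * (((walls a σ).card : ℤ) - 3) ≤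
      ∑ ℓ ∈ bad, (24 - 8 * (ℓ.card : ℤ)) - 24 := by
    have h1 : ∑ σ ∈ NG, (4 : ℤ) * (((walls a σ).card : ℤ) - 3) ≤
        ∑ σ ∈ topes a, (4 : ℤ) * (((walls a σ).card : ℤ) - 3) := by
      apply sum_le_sum_of_subset_of_nonneg (filter_subset _ _)
      intro σ hσ _
      have := hM1 σ hσ
      have h3 : (3 : ℤ) ≤ ((walls a σ).card : ℤ) := by exact_mod_cast this
      linarith
    have h1' : ∑ σ ∈ topes a, (4 : ℤ) * (((walls a σ).card : ℤ) - 3) =
        4 * (∑ ℓ ∈ lns a, (6 - 2 * (ℓ.card : ℤ)) - 6) := by rw [← mul_sum, hM2]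
    rw [h1'] at h1
    have h2 : ∑ ℓ ∈ lns a, (6 - 2 * (ℓ.card : ℤ)) = ∑ ℓ ∈ bad, (6 - 2 * (ℓ.card : ℤ)) := by
      rw [hbad, sum_filter]
      apply sum_congr rfl
      intro ℓ _
      split_ifs with h
      · rfl
      · push Not at h
        rw [h]; norm_num
    rw [h2] at h1
    have h3 : ∑ ℓ ∈ bad, (24 - 8 * (ℓ.card : ℤ)) = 4 * ∑ ℓ ∈ bad, (6 - 2 * (ℓ.card : ℤ)) := by
      rw [mul_sum]; apply sum_congr rfl; intro ℓ _; ring
    rw [h3]
    refine h1.trans ?_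
    ring_nf
    exact le_refl _
  -- the number of walls with a good tope behind, for three walls
  have hone : ∀ σ ∈ T3, (univ.filter fun k => IsGood a (flp σ k)).card ≤ 1 := by
    intro σ hσ
    simp only [hT3, hNG, mem_filter, topes, mem_univ, true_and] at hσ
    obtain ⟨⟨h1, h2⟩, h3⟩ := hσ
    rw [card_le_one]
    intro k hk k' hk'
    simp only [mem_filter, mem_univ, true_and] at hk hk'
    by_contra hne
    -- lines from `k`
    have aux : ∀ k, IsGood a (flp σ k) → k ∈ walls a σ ∧ ∀ j ∈ walls a σ, j ≠ k →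
        (ln a k j).card = 3 := by
      intro k hk
      obtain ⟨d, hd1, hd2, hd3⟩ := dataAt hG hU ha hk (by rw [flp_flp]; exact h1)
      obtain ⟨n1, n2, n3, n4, n5, n6⟩ := hN ι a ha d hd2
      have hF : flp d.s d.w = σ := by rw [hd1, hd3, flp_flp]
      rw [hF] at n1 n2 n3 n4
      have nd := hd2.1
      simp only [List.nodup_cons, List.mem_cons, not_or, List.not_mem_nil, not_false_eq_true,
        and_true, List.nodup_nil] at nd
      obtain ⟨⟨e1, e2, e3, e4, e5⟩, ⟨e6, e7, e8, e9⟩, ⟨e10, e11, e12⟩, ⟨e13, e14⟩, e15⟩ := nd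
      have hW : walls a σ = {d.w, d.u', d.v'} := by
        symm
        apply eq_of_subset_of_card_le
        · intro t ht
          simp only [mem_insert, mem_singleton] at ht
          rcases ht with h | h | h <;> rw [h] <;> assumption
        · rw [h3, card_eq_three.mpr ⟨d.w, d.u', d.v', e10, e11, e13, rfl⟩]
      refine ⟨hd3 ▸ n2, ?_⟩
      intro j hj hjk
      rw [hW] at hj
      simp only [mem_insert, mem_singleton] at hj
      rw [← hd3] at hjk ⊢
      rcases hj with h | h | h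
      · exact absurd h hjk
      · rw [h, n5]
        exact card_eq_three.mpr ⟨d.w, d.u', d.v, e10, Ne.symm e6, Ne.symm e7, rfl⟩
      · rw [h, n6]
        exact card_eq_three.mpr ⟨d.w, d.v', d.u, e11, Ne.symm e2, Ne.symm e4, rfl⟩
    obtain ⟨q1, q2⟩ := aux k hk
    obtain ⟨q3, q4⟩ := aux k' hk'
    -- third wall
    obtain ⟨m, hm1, hm2, hm3, hm4⟩ : ∃ m, m ∈ walls a σ ∧ m ≠ k ∧ m ≠ k' ∧
        walls a σ = {k, k', m} := by
      have hc : (((walls a σ).erase k).erase k').card = 1 := by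
        rw [card_erase_of_mem (mem_erase.mpr ⟨Ne.symm hne, q3⟩), card_erase_of_mem q1, h3]
      obtain ⟨m, hm⟩ := card_eq_one.mp hc
      have hmm : m ∈ ((walls a σ).erase k).erase k' := by rw [hm]; simp
      simp only [mem_erase] at hmm
      refine ⟨m, hmm.2.2, hmm.2.1, hmm.1, ?_⟩
      ext t
      simp only [mem_insert, mem_singleton]
      constructor
      · intro ht
        by_cases t1 : t = k
        · exact Or.inl t1
        · by_cases t2 : t = k'
          · exact Or.inr (Or.inl t2)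
          · right; right
            have : t ∈ ((walls a σ).erase k).erase k' := by
              simp only [mem_erase]; exact ⟨t2, t1, ht⟩
            rw [hm] at this
            simpa using this
      · rintro (h | h | h) <;> rw [h]
        · exact q1
        · exact q3
        · exact hmm.2.2
    obtain ⟨-, -, g⟩ := hT ι a ha hs σ k k' m h1 hm4 hne hm3.symm hm2
    apply h2
    apply g (q2 k' q3 (Ne.symm hne)) (q4 m hm1 hm3)
    rw [ln_symm]
    exact q2 m hm1 hm2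
  have hnw : ∀ σ ∈ NG, (univ.filter fun k => IsGood a (flp σ k)).card ≤ (walls a σ).card := by
    intro σ hσ
    apply card_le_card
    intro k hk
    simp only [mem_filter, mem_univ, true_and] at hk
    obtain ⟨d, hd, hg⟩ := hk
    simp only [walls, mem_filter, mem_univ, true_and]
    rw [← hd]
    exact (hG ι a ha d hg).1
  have hw3 : ∀ σ ∈ NG, σ ∉ T3 → (4 : ℤ) ≤ ((walls a σ).card : ℤ) := by
    intro σ hσ h3
    have h1 : 3 ≤ (walls a σ).card := hM1 σ (mem_of_mem_filter σ hσ)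
    have h2 : (walls a σ).card ≠ 3 := by
      intro h; apply h3; simp only [hT3, mem_filter]; exact ⟨hσ, h⟩
    have : 4 ≤ (walls a σ).card := by omega
    exact_mod_cast this
  have hw3' : ∀ σ ∈ T3, ((walls a σ).card : ℤ) = 3 := by
    intro σ h3
    simp only [hT3, mem_filter] at h3
    exact_mod_cast h3.2
  have hsum : ∀ c : ℤ, ∑ σ ∈ NG, ((4 : ℤ) * (((walls a σ).card : ℤ) - 3) +
      if σ ∈ T3 then c else 0) = ∑ σ ∈ NG, (4 : ℤ) * (((walls a σ).card : ℤ) - 3) +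
      c * T3.card := by
    intro c
    rw [sum_add_distrib, ← sum_filter]
    congr 1
    have : NG.filter (fun σ => σ ∈ T3) = T3 := by
      ext σ
      simp only [mem_filter]
      constructor
      · exact fun h => h.2
      · intro h; exact ⟨mem_of_mem_filter σ h, h⟩
    rw [this, sum_const]
    simp [mul_comm]
  -- EE
  have hEE : (EE a : ℤ) ≤ ∑ σ ∈ NG, (4 : ℤ) * (((walls a σ).card : ℤ) - 3) + T3.card := by
    have h1 : EE a ≤ ∑ σ ∈ NG, (univ.filter fun k => IsGood a (flp σ k)).card := by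
      rw [← card_sigma]
      unfold EE
      apply card_le_card_of_injOn (fun p => (⟨flp p.1 p.2, p.2⟩ : Σ _ : (ι → Bool), ι))
      · intro p hp
        simp only [coe_filter, Set.mem_ofPred_eq, mem_univ, true_and] at hp
        obtain ⟨p1, p2, p3⟩ := hp
        simp only [coe_sigma, Set.mem_sigma_iff, mem_coe, hNG, topes, mem_filter, mem_univ,
          true_and]
        exact ⟨⟨p2, p3⟩, by rw [flp_flp]; exact p1⟩
      · rintro ⟨s1, k1⟩ _ ⟨s2, k2⟩ _ h
        simp only [Sigma.mk.injEq, heq_eq_eq] at h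
        obtain ⟨e1, e2⟩ := h
        subst e2
        have := congrArg (fun t => flp t k1) e1
        simp only [flp_flp] at this
        rw [this]
    have h2 : (EE a : ℤ) ≤ ∑ σ ∈ NG, ((univ.filter fun k => IsGood a (flp σ k)).card : ℤ) := by
      exact_mod_cast h1
    refine h2.trans ?_
    have h3 := hsum 1
    rw [one_mul] at h3
    rw [← h3]
    apply sum_le_sum
    intro σ hσ
    split_ifs with h
    · have g1 := hone σ h
      have g2 := hw3' σ h
      have g3 : ((univ.filter fun k => IsGood a (flp σ k)).card : ℤ) ≤ 1 := by exact_mod_cast g1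
      linarith
    · have g1 := hnw σ hσ
      have g2 := hw3 σ hσ h
      have g3 : ((univ.filter fun k => IsGood a (flp σ k)).card : ℤ) ≤ (walls a σ).card := by
        exact_mod_cast g1
      linarith
  have hBF : (BF a : ℤ) ≤ ∑ σ ∈ NG, (4 : ℤ) * (((walls a σ).card : ℤ) - 3) + 3 * T3.card := by
    have h1 : BF a ≤ ∑ σ ∈ NG, (walls a σ).card := by
      rw [← card_sigma]
      unfold BF
      apply card_le_card_of_injOn (fun p => (⟨p.1, p.2⟩ : Σ _ : (ι → Bool), ι))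
      · intro p hp
        simp only [coe_filter, Set.mem_ofPred_eq, mem_univ, true_and] at hp
        obtain ⟨p1, p2, p3⟩ := hp
        simp only [coe_sigma, Set.mem_sigma_iff, mem_coe, hNG, topes, mem_filter, mem_univ,
          true_and, walls]
        exact ⟨⟨p1, p3⟩, p2⟩
      · rintro ⟨s1, k1⟩ _ ⟨s2, k2⟩ _ h
        simp only [Sigma.mk.injEq, heq_eq_eq] at h
        obtain ⟨e1, e2⟩ := h
        rw [e1, e2]
    have h2 : (BF a : ℤ) ≤ ∑ σ ∈ NG, ((walls a σ).card : ℤ) := by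
      exact_mod_cast h1
    refine h2.trans ?_
    rw [← hsum 3]
    apply sum_le_sum
    intro σ hσ
    split_ifs with h
    · have g2 := hw3' σ h
      linarith
    · have g2 := hw3 σ hσ h
      linarith
  have h6 : 6 ≤ ∑ ℓ ∈ bad, (6 - 2 * (ℓ.card : ℤ)) := by
    have h2 : ∑ ℓ ∈ lns a, (6 - 2 * (ℓ.card : ℤ)) = ∑ ℓ ∈ bad, (6 - 2 * (ℓ.card : ℤ)) := by
      rw [hbad, sum_filter]
      apply sum_congr rfl
      intro ℓ _
      split_ifs with h
      · rfl
      · push Not at h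
        rw [h]; norm_num
    rw [h2] at hM2
    have h3 : (0 : ℤ) ≤ ∑ σ ∈ topes a, (((walls a σ).card : ℤ) - 3) := by
      apply sum_nonneg
      intro σ hσ
      have h3 : (3 : ℤ) ≤ ((walls a σ).card : ℤ) := by exact_mod_cast hM1 σ hσ
      linarith
    linarith
  exact ⟨by linarith, by linarith, h6, hl2⟩

/-- **CNT** -/
theorem cnt (hB : BasStmt) (hM : MelStmt) (hT : TriStmt) (hG : GdwStmt) (hN : NbrStmt)
    (hV : VtxStmt) (hU : UnqStmt) : CntStmt := by
  intro ι _ a ha hs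
  obtain ⟨hEE, hBF, h6, hl2⟩ := pre hB hM hT hG hN hV hU ι a ha hs
  obtain ⟨bad, hbad⟩ : ∃ bad, bad = (lns a).filter (fun ℓ => ℓ.card ≠ 3) := ⟨_, rfl⟩
  rw [← hbad] at hEE hBF h6
  have hm : ∀ ℓ ∈ bad, ℓ.card = 2 ∨ (4 ≤ ℓ.card) := by
    intro ℓ hℓ
    rw [hbad, mem_filter] at hℓ
    have h2 := hl2 ℓ hℓ.1
    have h3 := hℓ.2
    omega
  have hT2 : ∑ ℓ ∈ bad, (if ℓ.card = 2 then (1 : ℤ) else 0) = T2 a := by
    rw [Finset.sum_boole]
    unfold T2
    congr 2
    rw [hbad, filter_filter]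
    refine filter_congr fun ℓ _ => ?_
    omega
  obtain ⟨S, hS⟩ : ∃ S : ℤ, S = ∑ ℓ ∈ bad, (if 4 ≤ ℓ.card then ((ℓ.card : ℤ) - 3) else 0) :=
    ⟨_, rfl⟩
  have comb : ∀ A B : ℤ, ∀ f : Finset ι → ℤ,
      (∀ ℓ ∈ bad, f ℓ ≤ A * (if ℓ.card = 2 then (1 : ℤ) else 0) +
        B * (if 4 ≤ ℓ.card then ((ℓ.card : ℤ) - 3) else 0)) →
      ∑ ℓ ∈ bad, f ℓ ≤ A * T2 a + B * S := by
    intro A B f hf
    refine (sum_le_sum hf).trans ?_
    rw [sum_add_distrib, ← mul_sum, ← mul_sum, hT2, ← hS]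
  have h7 : ∑ ℓ ∈ bad, (6 - 2 * (ℓ.card : ℤ)) ≤ 2 * T2 a + (-2) * S := by
    apply comb
    intro ℓ hℓ
    rcases hm ℓ hℓ with h | h
    · rw [if_pos h, if_neg (by omega), h]; norm_num
    · rw [if_neg (by omega), if_pos h]
      linarith
  have hS0 : 0 ≤ S := by
    rw [hS]
    apply sum_nonneg
    intro ℓ _
    split_ifs with h
    · have : (4 : ℤ) ≤ (ℓ.card : ℤ) := by exact_mod_cast h
      linarith
    · exact le_refl 0
  have h8 : ∑ ℓ ∈ bad, (24 - 4 * (ℓ.card : ℤ)) ≤ 16 * T2 a + 8 * S := by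
    apply comb
    intro ℓ hℓ
    rcases hm ℓ hℓ with h | h
    · rw [if_pos h, if_neg (by omega), h]; norm_num
    · have h' : (4 : ℤ) ≤ (ℓ.card : ℤ) := by exact_mod_cast h
      rw [if_neg (by omega), if_pos h]
      linarith
  have h9 : ∑ ℓ ∈ bad, (24 + 4 * (ℓ.card : ℤ)) ≤ 32 * T2 a + 40 * S := by
    apply comb
    intro ℓ hℓ
    rcases hm ℓ hℓ with h | h
    · rw [if_pos h, if_neg (by omega), h]; norm_num
    · have h' : (4 : ℤ) ≤ (ℓ.card : ℤ) := by exact_mod_cast h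
      rw [if_neg (by omega), if_pos h]
      linarith
  have h10 : ∑ ℓ ∈ bad, (if 4 ≤ ℓ.card then (ℓ.card : ℤ) else 0) ≤ 0 * T2 a + 4 * S := by
    apply comb
    intro ℓ hℓ
    rcases hm ℓ hℓ with h | h
    · rw [if_neg (by omega), if_pos h, if_neg (by omega)]; norm_num
    · have h' : (4 : ℤ) ≤ (ℓ.card : ℤ) := by exact_mod_cast h
      rw [if_pos h, if_neg (by omega), if_pos h]
      linarith
  have e8 : ∑ ℓ ∈ bad, (24 - 8 * (ℓ.card : ℤ)) + ∑ ℓ ∈ bad, 4 * (ℓ.card : ℤ) =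
      ∑ ℓ ∈ bad, (24 - 4 * (ℓ.card : ℤ)) := by
    rw [← sum_add_distrib]
    exact sum_congr rfl fun ℓ _ => by ring
  have e9 : ∑ ℓ ∈ bad, (24 - 8 * (ℓ.card : ℤ)) + 3 * ∑ ℓ ∈ bad, 4 * (ℓ.card : ℤ) =
      ∑ ℓ ∈ bad, (24 + 4 * (ℓ.card : ℤ)) := by
    rw [mul_sum, ← sum_add_distrib]
    exact sum_congr rfl fun ℓ _ => by ring
  have e10 : ((∑ ℓ ∈ (lns a).filter (fun ℓ => 4 ≤ ℓ.card), ℓ.card : ℕ) : ℤ) =
      ∑ ℓ ∈ bad, (if 4 ≤ ℓ.card then (ℓ.card : ℤ) else 0) := by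
    rw [Nat.cast_sum, ← sum_filter, hbad, filter_filter]
    refine sum_congr (filter_congr fun ℓ _ => ?_) fun ℓ _ => rfl
    omega
  refine ⟨?_, ?_, ?_, ?_⟩
  · have : (EE a : ℤ) ≤ 24 * T2 a := by linarith
    exact_mod_cast this
  · have : (BF a : ℤ) ≤ 72 * T2 a := by linarith
    exact_mod_cast this
  · have : ((∑ ℓ ∈ (lns a).filter (fun ℓ => 4 ≤ ℓ.card), ℓ.card : ℕ) : ℤ) ≤ 4 * T2 a := by
      rw [e10]
      linarith
    exact_mod_cast this
  · have : (3 : ℤ) ≤ T2 a := by linarith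
    exact_mod_cast this

end Pool.Agent.OMF.H77
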