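import Pool.Agent.OMF.Stmts

/-! Squad OMF, row UNC (helper77): one curve at a typical point. -/

namespace Pool.Agent.OMF.H77U

open Finset Pool.Agent.GTO Pool.Agent.OMF
open scoped Classical

variable {ι : Type} [Fintype ι]

theorem tg_smul (t : ℝ) (e : Fin 6 → ℝ) (x : V) : tg (t • e) x = t • tg e x := by
  ext i
  fin_cases i <;> simp [tg] <;> ring

theorem ip_smul_left (t : ℝ) (u v : V) : ip (t • u) v = t * ip u v := by
  simp only [ip, Pi.smul_apply, smul_eq_mul]
  ring

theorem dt_cr_smul (t : ℝ) (u v w m : V) : dt u v (cr (t • w) m) = t * dt u v (cr w m) := by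
  simp only [dt, cr, Pi.smul_apply, smul_eq_mul, Matrix.cons_val_zero, Matrix.cons_val_one,
    Matrix.cons_val]
  ring

theorem ext_smul {a : ι → V} {e e' : Fin 6 → ℝ} {t : ℝ} (he : e' = t • e)
    (hZ : Zq a e' = Zq a e) {x g : ι} (h : Ext a e' x g) : Ext a e x g := by
  obtain ⟨h1, h2, ε, h3⟩ := h
  rw [hZ] at h1
  refine ⟨h1, h2, ε * (t * t), fun P hP hx hg => ?_⟩
  have h4 := h3 P (by rw [hZ]; exact hP) hx hg
  rw [he, tg_smul, ip_smul_left, ip_smul_left] at h4
  have e1 : ε * (dt (a x) (a g) (a P) * (t * ip (tg e (a x)) (a g)) *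
      (t * ip (tg e (a x)) (a P))) =
      ε * (t * t) * (dt (a x) (a g) (a P) * ip (tg e (a x)) (a g) * ip (tg e (a x)) (a P)) := by
    ring
  rw [e1] at h4
  exact h4

theorem cls_smul {a : ι → V} {e e' : Fin 6 → ℝ} {t : ℝ} (ht : t ≠ 0) (he : e' = t • e)
    (hZ : Zq a e' = Zq a e) {k : ℕ} {x z : ι} (h : Cls a k e' x z) : Cls a k e x z := by
  obtain ⟨ℓ, h1, h2, h3, g, g', h4, h5, h6, h7⟩ := h
  refine ⟨ℓ, h1, h2, h3, g, g', h4, ext_smul he hZ h5, ext_smul he hZ h6, fun i hi j hj => ?_⟩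
  have h8 := h7 i hi j hj
  rw [he, tg_smul, dt_cr_smul] at h8
  rcases mul_eq_zero.1 h8 with h | h
  · exact absurd h ht
  · exact h

omit [Fintype ι] in
theorem swap (x y z : ι) : ({x, y, z} : Finset ι) = {x, z, y} := by
  rw [Finset.pair_comm y z]

theorem tri_symm (bas : BasStmt) {a : ι → V} (ha : PI a) {x y z : ι} (h : Tri a x y z) :
    Tri a x z y := by
  obtain ⟨h1, h2, h3, h4⟩ := h
  have hb := (bas.2.2.2.2.2 ι a ha).1
  have hx : x ∈ ln a x y := ((bas.2.2.2.2.2 ι a ha).2.1 x y h1).1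
  have hz : z ∈ ln a x y := by
    rw [h4]
    simp
  have h5 := hb x y x z h1 (Ne.symm h3) hx hz
  refine ⟨Ne.symm h3, Ne.symm h2, Ne.symm h1, ?_⟩
  rw [h5, h4]
  exact swap x y z

theorem tri_unique (bas : BasStmt) {a : ι → V} (ha : PI a) {x y y' z : ι} (h : Tri a x y z)
    (h' : Tri a x y' z) : y = y' := by
  have h1 := (tri_symm bas ha h).2.2.2
  have h2 := (tri_symm bas ha h').2.2.2
  have h3 : y ∈ ({x, z, y'} : Finset ι) := by
    rw [← h2, h1]
    simp
  simp only [mem_insert, mem_singleton] at h3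
  rcases h3 with h4 | h4 | h4
  · exact absurd h4.symm h.1
  · exact absurd h4 h.2.1
  · exact h4

theorem rc_conic {a : ι → V} {k : ℕ} {e : Fin 6 → ℝ} (h1 : NoLineQ e) (h2 : k ≤ (Zq a e).card) :
    Zq a e ∈ RC a k := by
  unfold RC
  rw [mem_filter]
  exact ⟨mem_univ _, h2, Or.inr (Or.inl ⟨e, h1, rfl⟩)⟩

theorem rc_cubic {a : ι → V} {k : ℕ} {c : Fin 10 → ℝ} (h1 : NoLine c) (h2 : k ≤ (Zc a c).card) :
    Zc a c ∈ RC a k := by
  unfold RC
  rw [mem_filter]
  exact ⟨mem_univ _, h2, Or.inr (Or.inr ⟨c, h1, rfl⟩)⟩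

theorem same {a : ι → V} {k : ℕ} {x : ι} (hx : x ∉ EX a k) {C C' : Finset ι} (h : C ∈ RC a k)
    (h' : C' ∈ RC a k) (hC : x ∈ C) (hC' : x ∈ C') : C = C' := by
  by_contra hne
  apply hx
  unfold EX
  rw [mem_filter]
  exact ⟨mem_univ _, C, h, C', h', hne, hC, hC'⟩

theorem noline_ne {c : Fin 10 → ℝ} (h : NoLine c) : c ≠ 0 := by
  intro h0
  obtain ⟨s, t, h1⟩ := h ![1, 0, 0] ![0, 1, 0] (by
    intro h2
    have := congrFun h2 2
    simp [cr] at this)
  apply h1
  rw [h0]
  simp [cub]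

/-- the conic is determined by its points -/
theorem conic_eq (rci : RciStmt) {a : ι → V} (ha : PI a) {e e' : Fin 6 → ℝ} (h : NoLineQ e)
    (h' : NoLineQ e') (hZ : Zq a e' = Zq a e) (hc : 5 ≤ (Zq a e).card) :
    ∃ t : ℝ, t ≠ 0 ∧ e' = t • e := by
  have hcard : Fintype.card (Fin 5) ≤ Fintype.card {i // i ∈ Zq a e} := by
    rw [Fintype.card_fin, Fintype.card_coe]
    exact hc
  obtain ⟨φ⟩ := Function.Embedding.nonempty_of_card_le hcard
  refine rci.2.1 e e' (fun i => a (φ i).1) h h' ?_ ?_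
  · intro i j hij
    apply ha
    intro h1
    exact hij (φ.injective (Subtype.ext h1))
  · intro i
    have h1 := (φ i).2
    have h2 : (φ i).1 ∈ Zq a e' := by rw [hZ]; exact h1
    unfold Zq at h1 h2
    rw [mem_filter] at h1 h2
    exact ⟨h1.2, h2.2⟩

/-- **UNC** -/
theorem unc (bas : BasStmt) (cls : ClsStmt) (rci : RciStmt) : UncStmt := by
  intro ι _ a ha N k x hN hk hkN hcard hxU hxE
  obtain ⟨hb7, hb8, -⟩ := bas.2.2.2.2.2 ι a ha
  obtain ⟨f, hf⟩ : ∃ f : ι → Finset ι, ∀ z y, y ∈ f z ↔ Tri a x y z :=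
    ⟨fun z => univ.filter fun y => Tri a x y z, fun z y => by simp⟩
  obtain ⟨Bd, hBd⟩ : ∃ Bd, Bd = insert x (Miss a N x ∪ (EX a k ∪ (EX a k).biUnion f)) := ⟨_, rfl⟩
  have hBdc : Bd.card ≤ (Miss a N x).card + 2 * (EX a k).card + 1 := by
    have h1 : ((EX a k).biUnion f).card ≤ (EX a k).card * 1 := by
      refine card_biUnion_le_card_mul _ _ _ fun z _ => ?_
      rw [card_le_one]
      intro y hy y' hy'
      exact tri_unique bas ha ((hf z y).1 hy) ((hf z y').1 hy')
    have h2 := card_insert_le x (Miss a N x ∪ (EX a k ∪ (EX a k).biUnion f))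
    have h3 := card_union_le (Miss a N x) (EX a k ∪ (EX a k).biUnion f)
    have h4 := card_union_le (EX a k) ((EX a k).biUnion f)
    rw [hBd]
    omega
  -- the main property of the points outside of `Bd`
  have key : ∀ y, y ∉ Bd → ∃ z, z ∉ Bd ∧ Tri a x y z ∧
      (TyI a k x y z ∨ TyB a k x y z ∨ TyB a k x z y) := by
    intro y hy
    rw [hBd] at hy
    simp only [mem_insert, mem_union, not_or] at hy
    obtain ⟨hyx, hyM, hyE, hyf⟩ := hy
    have hFG : ln a x y ∈ FG a N := by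
      by_contra h1
      apply hyM
      unfold Miss
      rw [mem_filter]
      exact ⟨mem_univ _, hyx, h1⟩
    have hxl : x ∈ ln a x y := (hb8 x y (Ne.symm hyx)).1
    have hyl : y ∈ ln a x y := (hb8 x y (Ne.symm hyx)).2
    obtain ⟨z, htri, hty⟩ : ∃ z, Tri a x y z ∧ (y ∈ EX a k ∨ z ∈ EX a k ∨
        TyI a k x y z ∨ TyB a k x y z ∨ TyB a k x z y) := by
      obtain ⟨y', z', h1, h2, h3, h4, h5⟩ := cls ι a ha N k x (ln a x y) hN hkN hcard hxU hFG hxl
      have h6 : y ∈ ({x, y', z'} : Finset ι) := by rw [← h1]; exact hyl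
      simp only [mem_insert, mem_singleton] at h6
      rcases h6 with h6 | h6 | h6
      · exact absurd h6 hyx
      · subst h6
        exact ⟨z', ⟨h2, h3, h4, h1⟩, h5⟩
      · subst h6
        refine ⟨y', ⟨Ne.symm h4, Ne.symm h3, Ne.symm h2, ?_⟩, ?_⟩
        · rw [h1]
          exact swap x y' y
        · rcases h5 with h5 | h5 | h5 | h5 | h5
          · exact Or.inr (Or.inl h5)
          · exact Or.inl h5
          · obtain ⟨c, c1, c2, c3, c4, c5⟩ := h5
            exact Or.inr (Or.inr (Or.inl ⟨c, c1, c2, c3, c5, c4⟩))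
          · exact Or.inr (Or.inr (Or.inr (Or.inr h5)))
          · exact Or.inr (Or.inr (Or.inr (Or.inl h5)))
    have htri' := tri_symm bas ha htri
    have hzE : z ∉ EX a k := by
      intro h1
      exact hyf (mem_biUnion.2 ⟨z, h1, (hf z y).2 htri⟩)
    refine ⟨z, ?_, htri, ?_⟩
    · rw [hBd]
      simp only [mem_insert, mem_union, not_or]
      refine ⟨htri.2.2.1, ?_, hzE, ?_⟩
      · unfold Miss
        rw [mem_filter]
        rintro ⟨-, -, h1⟩
        apply h1
        rw [htri'.2.2.2]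
        have h2 := htri.2.2.2
        have h3 : ({x, z, y} : Finset ι) = {x, y, z} := swap x z y
        rw [h3, ← h2]
        exact hFG
      · intro h1
        rw [mem_biUnion] at h1
        obtain ⟨z', h2, h3⟩ := h1
        have h4 := (hf z' z).1 h3
        have h5 : y = z' := tri_unique bas ha htri (tri_symm bas ha h4)
        rw [← h5] at h2
        exact hyE h2
    · rcases hty with h | h | h
      · exact absurd h hyE
      · exact absurd h hzE
      · exact h
  refine ⟨Bd, hBdc, ?_⟩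
  by_cases hI : ∃ y z, y ∉ Bd ∧ TyI a k x y z
  · -- a cubic
    left
    obtain ⟨y0, z0, -, c, hc1, hc2, hc3, -, -⟩ := hI
    refine ⟨c, noline_ne hc1, ?_, fun _ => ⟨hc1, hc2, hc3⟩⟩
    have hno : ∀ e, NoLineQ e → k ≤ (Zq a e).card → x ∈ Zq a e → False := by
      intro e h1 h2 h3
      have h4 := same hxE (rc_cubic hc1 hc2) (rc_conic h1 h2) hc3 h3
      exact rci.2.2.1 ι a ha c e hc1 h1 (by omega) h4
    intro y hy
    obtain ⟨z, -, -, h⟩ := key y hy
    rcases h with h | h | h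
    · obtain ⟨c', c1, c2, c3, c4, -⟩ := h
      rw [same hxE (rc_cubic hc1 hc2) (rc_cubic c1 c2) hc3 c3]
      exact c4
    · obtain ⟨e, e1, e2, e3, -⟩ := h
      exact (hno e e1 e2 e3).elim
    · obtain ⟨e, e1, e2, e3, -⟩ := h
      exact (hno e e1 e2 e3).elim
  by_cases huniv : Bd = univ
  · left
    refine ⟨fun _ => 1, ?_, ?_, fun h => absurd huniv h⟩
    · intro h
      have := congrFun h 0
      simp at this
    · intro y hy
      exact absurd (by rw [huniv]; exact mem_univ y) hy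
  · -- a conic
    right
    obtain ⟨y0, hy0⟩ : ∃ y0, y0 ∉ Bd := by
      by_contra h
      apply huniv
      ext t
      simp only [mem_univ, iff_true]
      by_contra ht
      exact h ⟨t, ht⟩
    have key2 : ∀ y, y ∉ Bd → ∃ z, z ∉ Bd ∧ Tri a x y z ∧
        (TyB a k x y z ∨ TyB a k x z y) := by
      intro y hy
      obtain ⟨z, h1, h2, h3⟩ := key y hy
      refine ⟨z, h1, h2, ?_⟩
      rcases h3 with h3 | h3
      · exact absurd ⟨y, z, hy, h3⟩ hI
      · exact h3
    obtain ⟨e, he1, he2, he3⟩ : ∃ e, NoLineQ e ∧ k ≤ (Zq a e).card ∧ x ∈ Zq a e := by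
      obtain ⟨z0, -, -, h | h⟩ := key2 y0 hy0
      · obtain ⟨e, e1, e2, e3, -⟩ := h
        exact ⟨e, e1, e2, e3⟩
      · obtain ⟨e, e1, e2, e3, -⟩ := h
        exact ⟨e, e1, e2, e3⟩
    have key3 : ∀ y, y ∉ Bd → ∃ z, z ∉ Bd ∧ Tri a x y z ∧
        ((y ∈ Zq a e ∧ z ∉ Zq a e) ∨ (z ∈ Zq a e ∧ y ∉ Zq a e ∧ Cls a k e x y)) := by
      intro y hy
      obtain ⟨z, h1, h2, h3⟩ := key2 y hy
      refine ⟨z, h1, h2, ?_⟩
      rcases h3 with h3 | h3
      · obtain ⟨e', e1, e2, e3, e4, e5, e6⟩ := h3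
        have hZ := same hxE (rc_conic e1 e2) (rc_conic he1 he2) e3 he3
        rw [hZ] at e4 e5
        exact Or.inl ⟨e4, e5⟩
      · obtain ⟨e', e1, e2, e3, e4, e5, e6⟩ := h3
        have hZ := same hxE (rc_conic e1 e2) (rc_conic he1 he2) e3 he3
        obtain ⟨t, ht, het⟩ := conic_eq rci ha he1 e1 hZ (by omega)
        have h4 := cls_smul ht het hZ e6
        rw [hZ] at e4 e5
        exact Or.inr ⟨e4, e5, h4⟩
    refine ⟨e, he1, he2, he3, ?_, ?_⟩
    · -- counting
      choose! g hg using key3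
      have h1 : (univ.filter fun y => y ∉ Bd ∧ y ∉ Zq a e).card ≤ (Zq a e).card := by
        refine card_le_card_of_injOn g ?_ ?_
        · intro y hy
          simp only [coe_filter, Set.mem_ofPred_eq, mem_univ, true_and] at hy
          obtain ⟨-, -, h2⟩ := hg y hy.1
          rcases h2 with h2 | h2
          · exact absurd h2.1 hy.2
          · exact mem_coe.2 h2.1
        · intro y hy y' hy' hyy
          simp only [coe_filter, Set.mem_ofPred_eq, mem_univ, true_and] at hy hy'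
          have h2 := (hg y hy.1).2.1
          have h3 := (hg y' hy'.1).2.1
          rw [hyy] at h2
          exact tri_unique bas ha h2 h3
      have h2 : (univ : Finset ι) ⊆ Bd ∪ (Zq a e ∪ univ.filter fun y => y ∉ Bd ∧ y ∉ Zq a e) := by
        intro y _
        by_cases c1 : y ∈ Bd
        · exact mem_union_left _ c1
        · by_cases c2 : y ∈ Zq a e
          · exact mem_union_right _ (mem_union_left _ c2)
          · exact mem_union_right _ (mem_union_right _ (mem_filter.2 ⟨mem_univ _, c1, c2⟩))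
      have h3 := card_le_card h2
      have h4 := card_union_le Bd (Zq a e ∪ univ.filter fun y => y ∉ Bd ∧ y ∉ Zq a e)
      have h5 := card_union_le (Zq a e) (univ.filter fun y => y ∉ Bd ∧ y ∉ Zq a e)
      rw [card_univ] at h3
      omega
    · intro y hy
      obtain ⟨z, -, -, h | h⟩ := key3 y hy
      · exact Or.inl h.1
      · exact Or.inr h.2

end Pool.Agent.OMF.H77U
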